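import Pool.Agent.H.MP_7fb950_al.C

set_option autoImplicit false

namespace Pool.Agent.Results.MP_7fb950_al.Full

open Pool.Agent.H.MP_7fb950_al

/-- For a finite graph `Γ` and non-trivial finite vertex groups, the electrification is a
quasi-line iff `Γ` has exactly one non-edge `{u, v}` and both `G u`, `G v` have order two, iff the
graph product is infinite and virtually cyclic. -/
theorem result (V : Type) [Finite V] (Γ : SimpleGraph V) (G : V → Type) [∀ v, Group (G v)]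
    [∀ v, Finite (G v)] [∀ v, Nontrivial (G v)] :
    (QuasiLine (Gen Γ G) ↔ ∃ u v, u ≠ v ∧ ¬ Γ.Adj u v ∧ Nat.card (G u) = 2 ∧ Nat.card (G v) = 2 ∧
      ∀ a b, a ≠ b → ¬ Γ.Adj a b → (a = u ∧ b = v) ∨ (a = v ∧ b = u)) ∧
    (QuasiLine (Gen Γ G) ↔
      Infinite (GPr Γ G) ∧ ∃ c : GPr Γ G, (Subgroup.zpowers c).FiniteIndex) :=
  ⟨⟨ql_ex, fun h => (ex_all h).1⟩,
    fun h => (ex_all (ql_ex h)).2, fun ⟨h, _, hc⟩ => (ex_all (vc_ex h hc)).1⟩

end Pool.Agent.Results.MP_7fb950_al.Full
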